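import Pool.Agent.Helper76.S7.StC

set_option autoImplicit false

namespace Pool.Agent.Helper22.S7

open Pool.Agent.Helper76.S7 Pool.Agent.Helper14.W5

private def ck (a b c d : ℕ) : Bool :=
  rep49.any fun m => decide (((b : ℤ) * m.1 - (a : ℤ) * m.2.1) % 7 = 0) &&
    decide (((c : ℤ) * m.2.2.2 - (d : ℤ) * m.2.2.1) % 7 = 0)

set_option maxRecDepth 100000 in
private theorem ck_all : ∀ a < 7, ∀ b < 7, ∀ c < 7, ∀ d < 7,
    (a * d + 49 - b * c) % 7 = 1 → ck a b c d = true := by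
  decide +kernel

private theorem res (a : ℤ) : ∃ n : ℕ, n < 7 ∧ ∃ k : ℤ, a = n + 7 * k := by
  refine ⟨(a % 7).toNat, by omega, a / 7, by omega⟩

/-- REP. -/
theorem hRep : S7Rep := by
  refine ⟨by decide +kernel, ?_⟩
  intro a b c d h
  obtain ⟨a0, ha, ka, ea⟩ := res a
  obtain ⟨b0, hb, kb, eb⟩ := res b
  obtain ⟨c0, hc, kc, ec⟩ := res c
  obtain ⟨d0, hd, kd, ed⟩ := res d
  have hbc : b0 * c0 ≤ 36 := by
    calc b0 * c0 ≤ 6 * 6 := Nat.mul_le_mul (by omega) (by omega)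
      _ = 36 := by norm_num
  have h1 : ∃ k : ℤ, ((a0 * d0 : ℕ) : ℤ) - ((b0 * c0 : ℕ) : ℤ) = 1 + 7 * k := by
    refine ⟨-(ka * d0 + a0 * kd + 7 * ka * kd - (kb * c0 + b0 * kc + 7 * kb * kc)), ?_⟩
    push_cast
    rw [ea, eb, ec, ed] at h
    linarith [h]
  have h2 : (a0 * d0 + 49 - b0 * c0) % 7 = 1 := by
    obtain ⟨k, hk⟩ := h1
    generalize a0 * d0 = P at *
    generalize b0 * c0 = Q at *
    omega
  have h3 := ck_all a0 ha b0 hb c0 hc d0 hd h2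
  unfold ck at h3
  rw [List.any_eq_true] at h3
  obtain ⟨m, hm, h4⟩ := h3
  rw [Bool.and_eq_true, decide_eq_true_eq, decide_eq_true_eq] at h4
  obtain ⟨u, hu⟩ := Int.dvd_of_emod_eq_zero h4.1
  obtain ⟨v, hv⟩ := Int.dvd_of_emod_eq_zero h4.2
  have hdet : m.1 * m.2.2.2 - m.2.1 * m.2.2.1 = 1 :=
    (by decide +kernel : ∀ m ∈ rep49, m.1 * m.2.2.2 - m.2.1 * m.2.2.1 = 1) m hm
  have hβ : b * m.1 - a * m.2.1 = 7 * (u + kb * m.1 - ka * m.2.1) := by
    rw [ea, eb]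
    linear_combination hu
  have hγ : c * m.2.2.2 - d * m.2.2.1 = 7 * (v + kc * m.2.2.2 - kd * m.2.2.1) := by
    rw [ec, ed]
    linear_combination hv
  refine ⟨m, hm, a * m.2.2.2 - b * m.2.2.1, u + kb * m.1 - ka * m.2.1,
    v + kc * m.2.2.2 - kd * m.2.2.1, d * m.1 - c * m.2.1, ?_, ?_, ?_, ?_, ?_⟩
  · have e : 49 * (u + kb * m.1 - ka * m.2.1) * (v + kc * m.2.2.2 - kd * m.2.2.1) =
        (b * m.1 - a * m.2.1) * (c * m.2.2.2 - d * m.2.2.1) := by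
      rw [hβ, hγ]
      ring
    rw [e]
    linear_combination (m.1 * m.2.2.2 - m.2.1 * m.2.2.1) * h + hdet
  · linear_combination (-a) * hdet + m.2.2.1 * hβ
  · linear_combination (-b) * hdet + m.2.2.2 * hβ
  · linear_combination (-c) * hdet + m.1 * hγ
  · linear_combination (-d) * hdet + m.2.1 * hγ

end Pool.Agent.Helper22.S7
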